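import Pool.Agent.H34.O1.Mouf

/-!
End game of case O1: if `th(a,b)` fixes `b` for all `a, b` and `J` fixes only `e` then the loop has
the inverse property, `L_{xy} = L_x L_y th(x,y)`, and it is a group or commutative.
-/

set_option autoImplicit false

namespace ALoop

open Equiv

variable {Q : Type*} {G : Subgroup (Perm Q)} {L : Q → Perm Q} {J : Perm Q} {e : Q}

/-- the inner mapping `L_{xy}⁻¹ L_x L_y` -/
def aa (L : Q → Perm Q) (x y : Q) : Perm Q := (L (L x y))⁻¹ * L x * L y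

namespace AL0

theorem e_k7a (h : AL0 G L J e) (hb : ∀ a b, Th L J a b b = b) (a b : Q) :
    Th L J a b a = a := by
  have h1 := hb (J b) (J a)
  rw [h.Th_inv a b, Perm.inv_eq_iff_eq] at h1
  have h2 := h.fixJ (h.Th_mem a b) (h.Th_e a b) h1.symm
  rwa [h.JJ] at h2

theorem e_inv_r (h : AL0 G L J e) (hb : ∀ a b, Th L J a b b = b) (a b : Q) :
    Th L J a (J b) = (Th L J a b)⁻¹ := by
  have c1 := h.comL (h.Th_mem a b) (h.Th_e a b) (hb a b)
  have c2 := h.comR (h.Th_mem a b) (h.Th_e a b) (hb a b)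
  have c3 : Th L J a b * Tx L J b = Tx L J b * Th L J a b := by
    unfold Tx
    calc Th L J a b * (L b * (Rt L J b)⁻¹) = (Th L J a b * L b) * (Rt L J b)⁻¹ := by group
      _ = L b * (Th L J a b * (Rt L J b)⁻¹) := by rw [c1]; group
      _ = L b * ((Rt L J b)⁻¹ * (Rt L J b * Th L J a b) * (Rt L J b)⁻¹) := by group
      _ = L b * ((Rt L J b)⁻¹ * (Th L J a b * Rt L J b) * (Rt L J b)⁻¹) := by rw [← c2]
      _ = _ := by group
  have h1 := h.K1 a b
  rw [c3] at h1
  have h2 := mul_left_cancel h1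
  rw [← h2, inv_inv]

theorem e_i (h : AL0 G L J e) (hb : ∀ a b, Th L J a b b = b) (a b : Q) :
    Th L J (J b) a = Th L J a b := by
  have h1 := h.Th_inv a b
  rw [h.e_inv_r hb (J b) a] at h1
  exact inv_injective h1

theorem e_sg (h : AL0 G L J e) (hb : ∀ a b, Th L J a b b = b) (a b : Q) :
    Th L J b a = (Th L J a b)⁻¹ := by
  have h1 := h.e_i hb a (J b)
  rw [h.JJ] at h1
  rw [h1, h.e_inv_r hb]

theorem e_conj (a b : Q) : (L a)⁻¹ * Rt L J b * L a = Rt L J b * (Th L J a b)⁻¹ := by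
  unfold Th; group

theorem e_ip (h : AL0 G L J e) (hb : ∀ a b, Th L J a b b = b) (b : Q) :
    Rt L J b * Rt L J (J b) = 1 := by
  have key : ∀ a, (L a)⁻¹ * (Rt L J b * Rt L J (J b)) * L a = Rt L J b * Rt L J (J b) := by
    intro a
    have c := h.comR (h.Th_mem a b) (h.Th_e a b) (h.fixJ (h.Th_mem a b) (h.Th_e a b) (hb a b))
    calc (L a)⁻¹ * (Rt L J b * Rt L J (J b)) * L a =
        ((L a)⁻¹ * Rt L J b * L a) * ((L a)⁻¹ * Rt L J (J b) * L a) := by group
      _ = (Rt L J b * (Th L J a b)⁻¹) * (Rt L J (J b) * Th L J a b) := by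
        rw [e_conj a b, e_conj a (J b), h.e_inv_r hb a b, inv_inv]
      _ = Rt L J b * ((Th L J a b)⁻¹ * (Th L J a b * Rt L J (J b))) := by rw [c]; group
      _ = _ := by group
  ext x
  have h2 := congrArg (fun p : Perm Q => p e) (key x)
  simp only [Perm.mul_apply] at h2
  rw [h.Le, Perm.inv_eq_iff_eq, h.Rt_e, h.Rt_app, h.Rt_app, h.Rt_app, h.JL, h.Le] at h2
  rw [Perm.mul_apply, h.Rt_app, h.Rt_app, h2, Perm.one_apply]

theorem e_LJ (h : AL0 G L J e) (hb : ∀ a b, Th L J a b b = b) (b : Q) :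
    L (J b) = (L b)⁻¹ := by
  have h1 := h.e_ip hb b
  have h2 : L (J b) * L b = 1 := by
    calc L (J b) * L b = (J * Rt L J b * J) * (J * Rt L J (J b) * J) := by
          rw [h.JRJ, h.JRJ, h.JJ]
      _ = J * Rt L J b * (J * J) * Rt L J (J b) * J := by group
      _ = J * (Rt L J b * Rt L J (J b)) * J := by rw [h.JJ1]; group
      _ = 1 := by rw [h1, mul_one, h.JJ1]
  exact eq_inv_of_mul_eq_one_left h2

theorem aa_mem (h : AL0 G L J e) (x y : Q) : aa L x y ∈ G :=
  G.mul_mem (G.mul_mem (G.inv_mem (h.memL _)) (h.memL _)) (h.memL _)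

theorem aa_e (h : AL0 G L J e) (x y : Q) : aa L x y e = e := by
  unfold aa
  rw [Perm.mul_apply, Perm.mul_apply, h.Le, Perm.inv_eq_iff_eq, h.Le]

theorem e_flex (h : AL0 G L J e) (x y : Q) : L x (L y x) = L (L x y) x := by
  have h1 := congrArg (fun p : Perm Q => p y) (h.flex x)
  simp only [Perm.mul_apply] at h1
  rwa [h.Rt_app, h.Rt_app] at h1

theorem aa_x (h : AL0 G L J e) (x y : Q) : aa L x y x = x := by
  unfold aa
  rw [Perm.mul_apply, Perm.mul_apply, Perm.inv_eq_iff_eq, h.e_flex]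

theorem aa_y (h : AL0 G L J e) (hb : ∀ a b, Th L J a b b = b) (x y : Q) : aa L x y y = y := by
  have hbG := h.aa_mem (J y) (J x)
  have hbe := h.aa_e (J y) (J x)
  have hby := h.aa_x (J y) (J x)
  have hw : L (L (J y) (J x)) = (L (L x y))⁻¹ := by rw [← h.aaip, h.e_LJ hb]
  have h1 : (aa L x y)⁻¹ = (L (L x y))⁻¹ * aa L (J y) (J x) * L (L x y) := by
    unfold aa
    rw [hw, h.e_LJ hb, h.e_LJ hb]
    group
  have h2 : aa L (J y) (J x) (L x y) = L x y := by
    have h3 : (aa L x y)⁻¹ e = e := by rw [Perm.inv_eq_iff_eq, h.aa_e]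
    rw [h1, Perm.mul_apply, Perm.mul_apply, h.Le, Perm.inv_eq_iff_eq, h.Le] at h3
    exact h3
  have h4 := h.comL hbG hbe h2
  have h5 : (aa L x y)⁻¹ = aa L (J y) (J x) := by
    rw [h1, mul_assoc, h4]; group
  have h6 := h.fixJ hbG hbe hby
  rw [h.JJ, ← h5, Perm.inv_eq_iff_eq] at h6
  exact h6.symm

/-- `th(q,y)⁻¹ (x y) = a(q,x)⁻¹ (x y)` -/
theorem e_X (h : AL0 G L J e) (hb : ∀ a b, Th L J a b b = b) (q x y : Q) :
    (Th L J q y)⁻¹ (L x y) = (aa L q x)⁻¹ (L x y) := by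
  have c1 := h.comR (h.Th_mem q y) (h.Th_e q y) (hb q y)
  have c2 := h.comL (h.aa_mem q x) (h.aa_e q x) (h.aa_y hb q x)
  have h1 : (Th L J q y)⁻¹ * Rt L J y = (L q)⁻¹ * Rt L J y * L q := by
    calc (Th L J q y)⁻¹ * Rt L J y =
        (Th L J q y)⁻¹ * (Rt L J y * Th L J q y) * (Th L J q y)⁻¹ := by group
      _ = (Th L J q y)⁻¹ * (Th L J q y * Rt L J y) * (Th L J q y)⁻¹ := by rw [← c1]
      _ = Rt L J y * (Th L J q y)⁻¹ := by group
      _ = _ := by unfold Th; group
  have h2 : (aa L q x)⁻¹ * L x = (L q)⁻¹ * L (L q x) := by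
    calc (aa L q x)⁻¹ * L x = (aa L q x)⁻¹ * (L x * aa L q x) * (aa L q x)⁻¹ := by group
      _ = (aa L q x)⁻¹ * (aa L q x * L x) * (aa L q x)⁻¹ := by rw [← c2]
      _ = L x * (aa L q x)⁻¹ := by group
      _ = _ := by unfold aa; group
  have h3 : (Th L J q y)⁻¹ (L x y) = (L q)⁻¹ (L (L q x) y) := by
    have := congrArg (fun p : Perm Q => p x) h1
    simp only [Perm.mul_apply] at this
    rwa [h.Rt_app, h.Rt_app] at this
  have h4 : (aa L q x)⁻¹ (L x y) = (L q)⁻¹ (L (L q x) y) := by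
    have := congrArg (fun p : Perm Q => p y) h2
    simpa only [Perm.mul_apply] using this
  rw [h3, h4]

theorem e_Z (h : AL0 G L J e) (hb : ∀ a b, Th L J a b b = b) (q x z : Q) :
    (Th L J q (L (J x) z))⁻¹ z = (aa L q x)⁻¹ z := by
  have h1 := h.e_X hb q x (L (J x) z)
  have h2 : L x (L (J x) z) = z := by
    rw [h.e_LJ hb, ← Perm.mul_apply, mul_inv_cancel, Perm.one_apply]
  rwa [h2] at h1

theorem e_Z' (h : AL0 G L J e) (hb : ∀ a b, Th L J a b b = b) (q x z : Q) :
    Th L J q (L z x) z = (aa L q x)⁻¹ z := by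
  have h1 := h.e_Z hb q x (J z)
  rw [← h.aaip, h.e_inv_r hb, inv_inv] at h1
  have hJ1 := congrArg (fun p : Perm Q => p z) (h.Th_J q (L z x))
  have hJ2 := congrArg (fun p : Perm Q => p z)
    (h.comJ (aa L q x)⁻¹ (G.inv_mem (h.aa_mem q x)) (by rw [Perm.inv_eq_iff_eq, h.aa_e]))
  simp only [Perm.mul_apply] at hJ1 hJ2
  rw [hJ1, hJ2] at h1
  exact J.injective h1

theorem e_Z2 (h : AL0 G L J e) (hb : ∀ a b, Th L J a b b = b) (q x z : Q) :
    Th L J q (L z (L z x)) z = Th L J q x z := by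
  rw [h.e_Z' hb q (L z x) z, ← h.e_Z hb q (L z x) z, ← h.e_inv_r hb, h.aaip, h.JJ]
  have : L (J z) (L z x) = x := by
    rw [h.e_LJ hb, ← Perm.mul_apply, inv_mul_cancel, Perm.one_apply]
  rw [this]

theorem e_Zk (h : AL0 G L J e) (hb : ∀ a b, Th L J a b b = b) (q x z : Q) (k : ℕ) :
    Th L J q (((L z) ^ (2 * k)) x) z = Th L J q x z := by
  induction k with
  | zero => simp
  | succ n ih =>
    have h1 : ((L z) ^ (2 * (n + 1))) x = L z (L z (((L z) ^ (2 * n)) x)) := by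
      have h2 : (L z) ^ (2 * (n + 1)) = L z * L z * (L z) ^ (2 * n) := by
        rw [← pow_two, ← pow_add]; congr 1; ring
      rw [h2, Perm.mul_apply, Perm.mul_apply]
    rw [h1, h.e_Z2 hb, ih]

theorem e_pow (h : AL0 G L J e) (hb : ∀ a b, Th L J a b b = b) (z : Q) (k : ℕ) :
    L (((L z) ^ k) e) = (L z) ^ k := by
  induction k with
  | zero => simp [h.L_e_one]
  | succ n ih =>
    have h1 : ((L z) ^ (n + 1)) e = L z (((L z) ^ n) e) := by
      rw [pow_succ', Perm.mul_apply]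
    rw [h1, pow_succ', ← ih]
    set p := ((L z) ^ n) e with hp
    ext y
    have c1 := h.comL (h.Th_mem z y) (h.Th_e z y) (h.e_k7a hb z y)
    have c2 : Commute (Th L J z y) ((L z) ^ n) := Commute.pow_right c1 n
    have h2 : Th L J z y p = p := by
      have := congrArg (fun f : Perm Q => f e) c2.eq
      simp only [Perm.mul_apply] at this
      rw [h.Th_e] at this
      exact this
    unfold Th at h2
    simp only [Perm.mul_apply] at h2
    rw [Perm.inv_eq_iff_eq, Perm.inv_eq_iff_eq, h.Rt_app, h.Rt_app] at h2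
    rw [h.Le, Perm.mul_apply, ← h2]

theorem e_odd [Finite Q] (h : AL0 G L J e) (hb : ∀ a b, Th L J a b b = b)
    (hfix : ∀ x, J x = x → x = e) (z : Q) : ∃ j : ℕ, (L z) ^ (2 * j) = L z := by
  classical
  have hodd : Odd (orderOf (L z)) := by
    by_contra hev
    rw [Nat.not_odd_iff_even] at hev
    obtain ⟨m, hm⟩ := hev
    set u := ((L z) ^ m) e with hu
    have h1 : L u = (L z) ^ m := h.e_pow hb z m
    have h2 : L u * L u = 1 := by
      rw [h1, ← pow_add, ← hm, pow_orderOf_eq_one]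
    have h3 : L u u = e := by
      have := congrArg (fun f : Perm Q => f e) h2
      simpa only [Perm.mul_apply, h.Le, Perm.one_apply] using this
    have h4 : J u = u := by
      apply (L u).injective
      rw [h3, h.LJ]
    have h5 := hfix u h4
    rw [h5, h.L_e_one] at h1
    have h6 : 0 < orderOf (L z) := orderOf_pos (L z)
    have h7 : orderOf (L z) ∣ m := orderOf_dvd_of_pow_eq_one h1.symm
    have h8 : 0 < m := by omega
    have h9 := Nat.le_of_dvd h8 h7
    omega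
  obtain ⟨j, hj⟩ := hodd
  refine ⟨j + 1, ?_⟩
  have : 2 * (j + 1) = orderOf (L z) + 1 := by omega
  rw [this, pow_succ, pow_orderOf_eq_one, one_mul]

theorem e_h4 [Finite Q] (h : AL0 G L J e) (hb : ∀ a b, Th L J a b b = b)
    (hfix : ∀ x, J x = x → x = e) (x y : Q) :
    L (L x y) = L x * L y * Th L J x y := by
  have h1 : (aa L x y)⁻¹ = Th L J x y := by
    ext z
    obtain ⟨j, hj⟩ := h.e_odd hb hfix z
    have h2 := h.e_Zk hb x y z j
    rw [hj] at h2
    rw [← h.e_Z' hb, h2]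
  rw [← h1]
  unfold aa
  group

end AL0

/-- END GAME: K7 and `J` has one fixed point: the loop is a group or commutative -/
theorem AL.end_game8 [Finite Q] (h : AL G L J e) (hfix : ∀ x, J x = x → x = e)
    (hb : ∀ a b, Th L J a b b = b) : Assoc L ∨ ∀ x y, L x y = L y x :=
  h.mouf_end (fun a b => h.al0.e_k7a hb a b) (fun a b => h.al0.e_sg hb a b)
    (fun x y => h.al0.e_h4 hb hfix x y)

end ALoop
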